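import Pool.Agent.Lib.MP_5bb885_an.T18Tw2

/-!
A thin neighbourhood of a one-sided closed curve contains no minimal set without closed orbits.
-/

namespace Pool.Agent.FS.OneOrbit

open Pool.Agent.Lib.MP_5bb885_an.Gen UpperHalfPlane MeasureTheory Filter Topology

variable {Γ : Type} [Group Γ] [MulAction Γ ℍ] {K : Set ℍ} {Φ : ℝ → ℍ → ℍ} {V : ℍ → ℂ}

lemma tcoh_zpow (F : Deck Γ) {β : Γ → ℝ} (hb : TCoh β) {γ : Γ} (h : sg γ = -1) (j : ℤ) :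
    (sg (γ ^ j) = 1 ∧ β (γ ^ j) = 0) ∨ (sg (γ ^ j) = -1 ∧ β (γ ^ j) = β γ) := by
  have key : ∀ i : ℤ, sg (γ ^ (i + 1)) = -sg (γ ^ i) ∧
      β (γ ^ (i + 1)) = β (γ ^ i) + sg (γ ^ i) * β γ := fun i => by
    rw [zpow_add_one, F.sg_mul, hb, h]
    exact ⟨by ring, rfl⟩
  induction j using Int.induction_on with
  | zero => exact Or.inl ⟨by rw [zpow_zero, sg_one], by rw [zpow_zero, hb.one]⟩
  | succ i ih =>
    obtain ⟨k1, k2⟩ := key i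
    rcases ih with ⟨a, b⟩ | ⟨a, b⟩ <;> rw [a, b] at k2 <;> rw [a] at k1
    · exact Or.inr ⟨k1, by linarith⟩
    · exact Or.inl ⟨by linarith, by linarith⟩
  | pred i ih =>
    obtain ⟨k1, k2⟩ := key (-i - 1)
    rw [sub_add_cancel] at k1 k2
    rcases ih with ⟨a, b⟩ | ⟨a, b⟩ <;> rw [b] at k2 <;> rw [a] at k1
    · have k3 : sg (γ ^ (-(i : ℤ) - 1)) = -1 := by linarith
      rw [k3] at k2
      exact Or.inr ⟨k3, by linarith⟩
    · have k3 : sg (γ ^ (-(i : ℤ) - 1)) = 1 := by linarith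
      rw [k3] at k2
      exact Or.inl ⟨k3, by linarith⟩

theorem aper_band (F : Deck Γ) (A : Aper Γ K Φ V) {x : ℝ → ℍ} {γ : Γ} {T ε : ℝ} (hp : Per x γ T)
    (ho : ¬Ori γ) (hε : 0 < ε)
    (h1 : ∀ (δ : Γ) (t t' : ℝ), dist (δ • x t') (x t) ≤ 3 * ε → ∃ j : ℤ, δ = γ ^ j)
    (h2 : ∀ z ∈ K, Metric.infDist z (Orb Γ x) < ε) : False := by
  have hne : (Orb Γ x).Nonempty := ⟨_, mem_orb _ 1 0⟩
  obtain ⟨R₀, hsec⟩ := A.exists_sec F
  obtain ⟨q, r, -, S, -⟩ := hsec 1 one_pos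
  obtain ⟨τ, g, R, τ₁, τ₂, ε₁, H⟩ := S.exists_ret F A
  obtain ⟨x₀, hx⟩ := S.ne
  have hl : (Ultrafilter.of (atTop : Filter ℕ) : Filter ℕ) ≤ atTop := Ultrafilter.of_le _
  obtain ⟨θ, hθ⟩ := H.exists_cdf F A S hx _ hl
  obtain ⟨β, hb, hsh, -⟩ := hθ.exists_shift' F A S H hx hl
  obtain ⟨_, ⟨g₀, t₀, rfl⟩, h3⟩ := (Metric.infDist_lt_iff hne).1 (h2 x₀ hx.1)
  have hop : ∀ P : Γ → Prop, IsOpen {z : ℍ | ∃ δ : Γ, P δ ∧ ∃ t, dist z (δ • x t) < ε} := by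
    intro P
    simp only [Set.ofPred_exists, Set.ofPred_and]
    exact isOpen_iUnion fun δ => isOpen_const.inter (isOpen_iUnion fun t =>
      isOpen_lt (continuous_id.dist continuous_const) continuous_const)
  have hstay : ∀ s, ∃ t, dist (Φ s x₀) (g₀ • x t) < ε := by
    have hc := (isPreconnected_range (A.toLam.continuous hx.1)).subset_left_of_subset_union
      (hop fun δ => ∃ j : ℤ, δ = g₀ * γ ^ j) (hop fun δ => ¬∃ j : ℤ, δ = g₀ * γ ^ j)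
      (Set.disjoint_left.2 (by
        rintro z ⟨_, ⟨j, rfl⟩, t, k1⟩ ⟨δ, k2, t', k3⟩
        obtain ⟨i, hi⟩ := h1 ((g₀ * γ ^ j)⁻¹ * δ) t t' (by
          rw [← F.iso (g₀ * γ ^ j), mul_smul (g₀ * γ ^ j)⁻¹, smul_inv_smul]
          linarith [dist_triangle_left (δ • x t') ((g₀ * γ ^ j) • x t) z])
        exact k2 ⟨j + i, by rw [zpow_add, ← mul_assoc, ← hi, mul_inv_cancel_left]⟩))
      (by
        rintro _ ⟨s, rfl⟩
        obtain ⟨_, ⟨δ, t, rfl⟩, k⟩ := (Metric.infDist_lt_iff hne).1 (h2 _ (A.map s x₀ hx.1))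
        by_cases k1 : ∃ j : ℤ, δ = g₀ * γ ^ j
        · exact Or.inl ⟨δ, k1, t, k⟩
        · exact Or.inr ⟨δ, k1, t, k⟩)
      ⟨x₀, Set.mem_range.2 ⟨0, A.zero x₀ hx.1⟩, g₀, ⟨0, by simp⟩, t₀, h3⟩
    intro s
    obtain ⟨_, ⟨j, rfl⟩, t, k⟩ := hc ⟨s, rfl⟩
    exact ⟨t + j * T, by rwa [hp.zpow, ← mul_smul]⟩
  have hs : sg (g₀ * γ * g₀⁻¹) = -1 := by
    rw [F.sg_mul, F.sg_mul, F.sg_inv, show sg γ = -1 from if_neg ho]
    rcases sg_cases g₀ with ⟨-, a⟩ | ⟨-, a⟩ <;> rw [a] <;> norm_num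
  have hval : ∀ k : ℕ, dist (R^[k] x₀) x₀ < ε → θ (q.ht (R^[k] x₀)) = θ (q.ht x₀) ∨
      θ (q.ht (R^[k] x₀)) = β (g₀ * γ * g₀⁻¹) - θ (q.ht x₀) := by
    intro k hk
    obtain ⟨t, k1⟩ := hstay (tk τ R x₀ k)
    rw [H.flow A.toLam hx] at k1
    obtain ⟨j, hj⟩ := h1 (g₀⁻¹ * Gk g R x₀ k * g₀) t t₀ (by
      rw [← F.iso g₀, mul_smul, mul_smul, smul_inv_smul]
      have k2 := dist_triangle4 (Gk g R x₀ k • g₀ • x t₀) (Gk g R x₀ k • x₀)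
        (Gk g R x₀ k • R^[k] x₀) (g₀ • x t)
      rw [F.iso, F.iso, dist_comm (g₀ • x t₀), dist_comm x₀ (R^[k] x₀)] at k2
      linarith)
    have e : Gk g R x₀ k = (g₀ * γ * g₀⁻¹) ^ j := by
      rw [conj_zpow, ← hj]
      group
    have k3 := shift_iter' F H hb hsh hx k
    rw [e] at k3
    rcases tcoh_zpow F hb hs j with ⟨a, b⟩ | ⟨a, b⟩ <;> rw [a, b] at k3
    · exact Or.inl (by linarith)
    · exact Or.inr (by linarith)
  obtain ⟨C, hC, hd⟩ := S.dist_le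
  obtain ⟨P, hP⟩ := H.recur F A S hx (div_pos hε hC)
  have hinf : {k : ℕ | dist (R^[k] x₀) x₀ < ε}.Infinite := by
    refine Set.infinite_of_forall_exists_gt fun n => ?_
    obtain ⟨j, -, hj⟩ := hP _ (H.iter hx (n + 1))
    rw [← Function.iterate_add_apply] at hj
    exact ⟨j + (n + 1), (hd _ (H.iter hx _).2 _ hx.2).trans_lt ((lt_div_iff₀' hC).1 hj), by omega⟩
  have hfin : ∀ v : ℝ, {k : ℕ | θ (q.ht (R^[k] x₀)) = v}.Finite := by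
    intro v
    by_contra hv
    obtain ⟨i, hi⟩ := (Set.not_finite.1 hv).nonempty
    obtain ⟨j, hj, hij⟩ := (Set.not_finite.1 hv).exists_gt i
    obtain ⟨k, hk, hjk⟩ := (Set.not_finite.1 hv).exists_gt j
    rcases hθ.three S (H.iter hx i) (H.iter hx j) (H.iter hx k) (hi.trans hj.symm)
      (hj.trans hk.symm) with k5 | k5 | k5
    · exact hij.ne (H.inj F A hx k5)
    · exact hjk.ne (H.inj F A hx k5)
    · exact (hij.trans hjk).ne (H.inj F A hx k5)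
  exact hinf (((hfin _).union (hfin _)).subset fun k hk => hval k hk)

end Pool.Agent.FS.OneOrbit
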