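import Pool.Agent.Lib.MP_5bb885_an.T9HL
import Pool.Agent.Lib.MP_5bb885_an.T9Lam

/-!
An equivariant coordinate around a point with a direction, and crossings of the transversals
along a curve of a lamination.
-/

namespace Pool.Agent.FS.OneOrbit

open Pool.Agent.Lib.MP_5bb885_an.Gen UpperHalfPlane MeasureTheory Filter Topology

open scoped ComplexConjugate

variable {Γ : Type} [Group Γ] [MulAction Γ ℍ] {K : Set ℍ} {Φ : ℝ → ℍ → ℍ} {V : ℍ → ℂ}

/-- The disc coordinate centred at `p`, normalised by the direction `v`. -/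
noncomputable def Dc (w p : ℍ) (v : ℂ) : ℂ :=
  ((w : ℂ) - p) / ((w : ℂ) - conj (p : ℂ)) * (((p : ℂ) - conj (p : ℂ)) / v)

lemma sub_conj_ne (w p : ℍ) : (w : ℂ) - conj (p : ℂ) ≠ 0 := fun h => by
  have h1 := congrArg Complex.im h
  simp only [Complex.sub_im, Complex.conj_im, coe_im, Complex.zero_im] at h1
  linarith [w.im_pos, p.im_pos]

lemma crs (g : GL (Fin 2) ℝ) {z w : ℂ} (h1 : denom g z ≠ 0) (h2 : denom g w ≠ 0) :
    num g z / denom g z - num g w / denom g w =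
      (g.det.val : ℂ) * (z - w) / (denom g z * denom g w) := by
  rw [div_sub_div _ _ h1 h2]
  congr 1
  simp only [num, denom, Matrix.GeneralLinearGroup.val_det_apply, Matrix.det_fin_two]
  push_cast
  ring

lemma Dc_smul (F : Deck Γ) (γ : Γ) (w p : ℍ) {v : ℂ} (hv : v ≠ 0) :
    (Dc (γ • w) (γ • p) (dk γ p v)).re = (Dc w p v).re ∧
      (Dc (γ • w) (γ • p) (dk γ p v)).im = sg γ * (Dc w p v).im := by
  obtain ⟨g, hg⟩ := F.mob γ
  have hD : (g.det.val : ℂ) ≠ 0 := Complex.ofReal_ne_zero.2 g.det.ne_zero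
  have h1 := denom_ne_zero g w
  have h2 := denom_ne_zero g p
  have h3 : denom g (conj (p : ℂ)) ≠ 0 := denom_ne_zero_of_im g (by
    rw [Complex.conj_im, neg_ne_zero]
    exact p.im_ne_zero)
  have h4 := sub_conj_ne w p
  have hdk : dk γ p v = σ g ((g.det.val : ℂ) / denom g p ^ (1 + 1) * v) := by
    rw [t9mob_dk hg]
    simp [smulFDeriv, mul_comm]
  have hc : conj (num g p / denom g p) = num g (conj (p : ℂ)) / denom g (conj (p : ℂ)) := by
    simp [num, denom]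
  have key : (num g w / denom g w - num g p / denom g p) /
      (num g w / denom g w - num g (conj (p : ℂ)) / denom g (conj (p : ℂ))) *
      ((num g p / denom g p - num g (conj (p : ℂ)) / denom g (conj (p : ℂ))) /
        ((g.det.val : ℂ) / denom g p ^ (1 + 1) * v)) = Dc w p v := by
    rw [crs g h1 h2, crs g h1 h3, crs g h2 h3, Dc]
    field_simp
    ring
  have e : Dc (γ • w) (γ • p) (dk γ p v) = σ g (Dc w p v) := by
    rw [← key, Dc, hdk, hg, hg, coe_smul, coe_smul, ← σ_conj, hc]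
    simp only [map_mul, map_div₀, map_sub]
  rw [e]
  by_cases h : 0 < g.det.val
  · rw [σ, if_pos h, sg, if_pos ((t9base_ori hg).2 h), one_mul]
    exact ⟨rfl, rfl⟩
  · rw [σ, if_neg h, sg, if_neg fun h' => h ((t9base_ori hg).1 h'), neg_one_mul]
    exact ⟨rfl, rfl⟩

lemma Dc_self (p : ℍ) (v : ℂ) : Dc p p v = 0 := by simp [Dc]

lemma Dc_inj {w w' p : ℍ} {v : ℂ} (hv : v ≠ 0) (h : Dc w p v = Dc w' p v) : w = w' := by
  have h1 := sub_conj_ne p p
  have h2 := mul_right_cancel₀ (div_ne_zero h1 hv) h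
  rw [div_eq_div_iff (sub_conj_ne w p) (sub_conj_ne w' p)] at h2
  have h3 : ((w : ℂ) - w') * ((p : ℂ) - conj (p : ℂ)) = 0 := by linear_combination h2
  exact UpperHalfPlane.ext (sub_eq_zero.1 ((mul_eq_zero.1 h3).resolve_right h1))

lemma Dc_size {w w' p : ℍ} {v : ℂ} (hv : v ≠ 0) (h : ‖Dc w p v‖ ≤ ‖Dc w' p v‖) :
    dist w p ≤ dist w' p := by
  have h1 : 0 < ‖((p : ℂ) - conj (p : ℂ)) / v‖ := norm_pos_iff.2 (div_ne_zero (sub_conj_ne p p) hv)
  rw [Dc, Dc, norm_mul, norm_mul] at h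
  have h2 := le_of_mul_le_mul_right h h1
  rw [norm_div, norm_div, ← dist_eq_norm, ← dist_eq_norm, ← dist_eq_norm, ← dist_eq_norm,
    ← tanh_half_dist, ← tanh_half_dist, Real.tanh_eq_sinh_div_cosh, Real.tanh_eq_sinh_div_cosh,
    div_le_div_iff₀ (Real.cosh_pos _) (Real.cosh_pos _)] at h2
  have h3 : Real.sinh (dist w p / 2 - dist w' p / 2) ≤ 0 := by
    rw [Real.sinh_sub]
    linarith
  rw [Real.sinh_nonpos_iff] at h3
  linarith

lemma Dc_cont {X : Type} [TopologicalSpace X] {w p : X → ℍ} {v : X → ℂ} {S : Set X}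
    (hw : ContinuousOn w S) (hp : ContinuousOn p S) (hv : ContinuousOn v S)
    (h0 : ∀ x ∈ S, v x ≠ 0) : ContinuousOn (fun x => Dc (w x) (p x) (v x)) S := by
  have h1 := continuous_coe.comp_continuousOn hw
  have h2 := continuous_coe.comp_continuousOn hp
  have h3 := Complex.continuous_conj.comp_continuousOn h2
  exact ((h1.sub h2).div (h1.sub h3) fun x _ => sub_conj_ne _ _).mul ((h2.sub h3).div hv h0)

/-- The derivative of the coordinate along the flow. -/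
noncomputable def Gc (w : ℍ) (u : ℂ) (p : ℍ) (v : ℂ) : ℂ :=
  u * ((p : ℂ) - conj (p : ℂ)) / ((w : ℂ) - conj (p : ℂ)) ^ 2 * (((p : ℂ) - conj (p : ℂ)) / v)

lemma Gc_self (p : ℍ) {v : ℂ} (hv : v ≠ 0) : Gc p v p v = 1 := by
  have := sub_conj_ne p p
  rw [Gc]
  field_simp

lemma Dc_deriv (A : Lam Γ K Φ V) {w : ℍ} (hw : w ∈ K) (p : ℍ) (v : ℂ) (s : ℝ) :
    HasDerivAt (fun s => (Dc (Φ s w) p v).re) (Gc (Φ s w) (V (Φ s w)) p v).re s := by
  have h := A.deriv w hw s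
  have h1 := (((h.sub_const (p : ℂ)).div (h.sub_const (conj (p : ℂ))) (sub_conj_ne _ _)).mul_const
    (((p : ℂ) - conj (p : ℂ)) / v)).congr_deriv (g' := Gc (Φ s w) (V (Φ s w)) p v) (by
      rw [Gc]
      congr 2
      ring)
  exact Complex.reCLM.hasFDerivAt.comp_hasDerivAt s h1

lemma uc {P Y : Type} [PseudoMetricSpace P] [PseudoMetricSpace Y] {S : Set P} (hS : IsCompact S)
    {c : P → ℍ} (hc : ContinuousOn c S) (hcK : ∀ p ∈ S, c p ∈ K) {H : P × ℍ → Y}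
    (hH : ContinuousOn H (S ×ˢ K)) (hK : IsClosed K) {ε : ℝ} (hε : 0 < ε) :
    ∃ η, 0 < η ∧ ∀ p ∈ S, ∀ w ∈ K, dist w (c p) ≤ η → dist (H (p, w)) (H (p, c p)) ≤ ε := by
  obtain ⟨R, hR⟩ := (hS.image_of_continuousOn hc).isBounded.subset_closedBall I
  have h1 : IsCompact (S ×ˢ (K ∩ Metric.closedBall I (R + 1))) :=
    hS.prod ((isCompact_closedBall I (R + 1)).inter_left hK)
  obtain ⟨δ, hδ, h2⟩ := Metric.uniformContinuousOn_iff.1 (h1.uniformContinuousOn_of_continuous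
    (hH.mono (Set.prod_mono_right Set.inter_subset_left))) ε hε
  refine ⟨min 1 (δ / 2), lt_min one_pos (half_pos hδ), fun p hp w hw h => ?_⟩
  have h3 : dist (c p) I ≤ R := hR ⟨p, hp, rfl⟩
  have h4 := le_min_iff.1 h
  refine (h2 (p, w) ⟨hp, hw, ?_⟩ (p, c p) ⟨hp, hcK p hp, ?_⟩ ?_).le
  · exact (dist_triangle w (c p) I).trans (by linarith [h4.1])
  · exact h3.trans (by linarith)
  · rw [Prod.dist_eq, dist_self, max_eq_right dist_nonneg]
    linarith [h4.2]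

variable {z₀ : ℍ} {T : ℝ}

/-- The coordinate on the transversal at time `t`. -/
noncomputable def ec (Φ : ℝ → ℍ → ℍ) (V : ℍ → ℂ) (z₀ w : ℍ) (t : ℝ) : ℂ :=
  Dc w (Φ t z₀) (V (Φ t z₀))

lemma contV (A : Lam Γ K Φ V) (hz : z₀ ∈ K) : Continuous fun t => V (Φ t z₀) :=
  A.contV.comp_continuous (A.continuous hz) fun t => A.map t z₀ hz

lemma close (A : Lam Γ K Φ V) (hz : z₀ ∈ K) (T : ℝ) {η : ℝ} (hη : 0 < η) :
    ∃ ρ, 0 < ρ ∧ ∀ t ∈ Set.Icc 0 (2 * T), ∀ w ∈ K, dist w (Φ t z₀) ≤ ρ →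
      ∀ s, |s| ≤ 2 * T + 1 → dist (Φ s w) (Φ (s + t) z₀) ≤ η := by
  obtain ⟨ρ, h1, h2⟩ := uc (K := K)
    (S := Set.Icc 0 (2 * T) ×ˢ Set.Icc (-(2 * T + 1)) (2 * T + 1))
    (isCompact_Icc.prod isCompact_Icc) (c := fun p => Φ p.1 z₀)
    ((A.continuous hz).comp continuous_fst).continuousOn (fun p _ => A.map _ _ hz)
    (H := fun q => Φ q.1.2 q.2) (A.cont.comp (f := fun q : (ℝ × ℝ) × ℍ => (q.1.2, q.2))
      (by fun_prop) fun q hq => ⟨trivial, hq.2⟩) A.closed hη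
  refine ⟨ρ, h1, fun t ht w hw h s hs => ?_⟩
  rw [A.add s t z₀ hz]
  exact h2 (t, s) ⟨ht, abs_le.1 hs⟩ w hw h

lemma cross (A : Lam Γ K Φ V) (hz : z₀ ∈ K) (hv : ∀ t, V (Φ t z₀) ≠ 0) (hT : 0 < T) :
    ∃ σ η₀, 0 < σ ∧ σ ≤ 1 ∧ σ ≤ T ∧ 0 < η₀ ∧
      (∀ t ∈ Set.Icc 0 (2 * T), ∀ w ∈ K, dist w (Φ t z₀) ≤ η₀ → ∀ s s', |s| ≤ σ → |s'| ≤ σ →
        (ec Φ V z₀ (Φ s w) t).re = (ec Φ V z₀ (Φ s' w) t).re → s = s') ∧
      ∀ σ', 0 < σ' → σ' ≤ σ → ∃ η, 0 < η ∧ ∀ t ∈ Set.Icc 0 (2 * T), ∀ w ∈ K,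
        dist w (Φ t z₀) ≤ η → ∃ s, |s| ≤ σ' ∧ (ec Φ V z₀ (Φ s w) t).re = 0 := by
  obtain ⟨C, hC, hd⟩ := A.dist_le
  have c1 : ContinuousOn (fun q : ℝ × ℍ => Φ q.1 z₀) (Set.Icc 0 (2 * T) ×ˢ K) :=
    ((A.continuous hz).comp continuous_fst).continuousOn
  have c2 : ContinuousOn (fun q : ℝ × ℍ => V (Φ q.1 z₀)) (Set.Icc 0 (2 * T) ×ˢ K) :=
    ((contV A hz).comp continuous_fst).continuousOn
  have c3 : ContinuousOn (fun q : ℝ × ℍ => V q.2) (Set.Icc 0 (2 * T) ×ˢ K) :=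
    A.contV.comp continuousOn_snd fun q hq => hq.2
  have c4 := continuous_coe.comp_continuousOn c1
  have c5 := Complex.continuous_conj.comp_continuousOn c4
  have c6 : ContinuousOn (fun q : ℝ × ℍ => (q.2 : ℂ)) (Set.Icc 0 (2 * T) ×ˢ K) :=
    (continuous_coe.comp continuous_snd).continuousOn
  obtain ⟨η, hη, h1⟩ := uc (K := K) (S := Set.Icc 0 (2 * T)) isCompact_Icc (c := fun t => Φ t z₀)
    (A.continuous hz).continuousOn (fun p _ => A.map _ _ hz)
    (H := fun q => (Gc q.2 (V q.2) (Φ q.1 z₀) (V (Φ q.1 z₀))).re)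
    (Complex.continuous_re.comp_continuousOn (((c3.mul (c4.sub c5)).div ((c6.sub c5).pow 2)
      fun q _ => pow_ne_zero _ (sub_conj_ne _ _)).mul ((c4.sub c5).div c2 fun q _ => hv _)))
    A.closed one_half_pos
  set σ := min (min 1 T) (η / (2 * (C + 1))) with hσ
  have hσ0 : 0 < σ := lt_min (lt_min one_pos hT) (by positivity)
  have hσ1 : C * σ ≤ η / 2 := by
    have := (le_div_iff₀ (by positivity)).1 (min_le_right (min 1 T) (η / (2 * (C + 1))))
    nlinarith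
  have key : ∀ t ∈ Set.Icc 0 (2 * T), ∀ w ∈ K, dist w (Φ t z₀) ≤ η / 2 → ∀ s s', |s| ≤ σ →
      |s'| ≤ σ → s ≤ s' →
      1 / 2 * (s' - s) ≤ (ec Φ V z₀ (Φ s' w) t).re - (ec Φ V z₀ (Φ s w) t).re := by
    intro t ht w hw h s s' hs hs' hss
    refine (convex_Icc (-σ) σ).mul_sub_le_image_sub_of_le_deriv
      (f := fun s => (ec Φ V z₀ (Φ s w) t).re)
      (fun r _ => (Dc_deriv A hw _ _ r).continuousAt.continuousWithinAt)
      (fun r _ => (Dc_deriv A hw _ _ r).differentiableAt.differentiableWithinAt)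
      (fun r hr => ?_) s (abs_le.1 hs) s' (abs_le.1 hs') hss
    have h2 := hd w hw r 0
    rw [A.zero w hw, sub_zero] at h2
    have h3 := mul_le_mul_of_nonneg_left (abs_le.2 (interior_subset (s := Set.Icc (-σ) σ) hr)) hC
    have h4 := h1 t ht _ (A.map r w hw) ((dist_triangle _ w _).trans (by linarith))
    simp only [Gc_self _ (hv t), Complex.one_re, Real.dist_eq] at h4
    rw [show deriv (fun s => (ec Φ V z₀ (Φ s w) t).re) r = _ from (Dc_deriv A hw _ _ r).deriv]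
    linarith [(abs_le.1 h4).1]
  refine ⟨σ, η / 2, hσ0, (min_le_left _ _).trans (min_le_left _ _),
    (min_le_left _ _).trans (min_le_right _ _), half_pos hη, fun t ht w hw h s s' hs hs' e => ?_,
    fun σ' h2 h3 => ?_⟩
  · rcases le_total s s' with k | k
    · linarith [key t ht w hw h s s' hs hs' k]
    · linarith [key t ht w hw h s' s hs' hs k]
  · obtain ⟨η', hη', h4⟩ := uc (K := K) (S := Set.Icc 0 (2 * T)) isCompact_Icc
      (c := fun t => Φ t z₀) (A.continuous hz).continuousOn (fun p _ => A.map _ _ hz)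
      (H := fun q => (ec Φ V z₀ q.2 q.1).re)
      (Complex.continuous_re.comp_continuousOn (Dc_cont continuousOn_snd c1 c2 fun q _ => hv _))
      A.closed (half_pos h2)
    refine ⟨min η' (η / 2), lt_min hη' (half_pos hη), fun t ht w hw h => ?_⟩
    have h5 := h4 t ht w hw (h.trans (min_le_left _ _))
    simp only [ec, Dc_self, Complex.zero_re, Real.dist_eq, sub_zero] at h5
    have h6 := key t ht w hw (h.trans (min_le_right _ _))
    have a1 : |σ'| ≤ σ := by rwa [abs_of_pos h2]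
    have a0 : |(0 : ℝ)| ≤ σ := by rw [abs_zero]; exact hσ0.le
    have h7 := h6 0 σ' a0 a1 h2.le
    have h8 := h6 (-σ') 0 (by rwa [abs_neg]) a0 (by linarith)
    rw [A.zero w hw] at h7 h8
    obtain ⟨s, hs, h9⟩ := intermediate_value_Icc (f := fun s => (ec Φ V z₀ (Φ s w) t).re)
      (show -σ' ≤ σ' by linarith)
      (fun r _ => (Dc_deriv A hw _ _ r).continuousAt.continuousWithinAt)
      (show (0 : ℝ) ∈ _ from ⟨by
        have := (abs_le.1 h5).2
        unfold ec at h8 ⊢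
        linarith, by
        have := (abs_le.1 h5).1
        unfold ec at h7 ⊢
        linarith⟩)
    exact ⟨s, abs_le.2 hs, h9⟩

end Pool.Agent.FS.OneOrbit
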