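import Pool.Agent.FS.OneOrbit.Coord

/-!
A lamination all of whose orbits come close to a one-sided closed orbit in both directions of
time consists of that orbit.
-/

namespace Pool.Agent.FS.OneOrbit

open Pool.Agent.Lib.MP_5bb885_an.Gen UpperHalfPlane MeasureTheory Filter Topology

variable {Γ : Type} [Group Γ] [MulAction Γ ℍ] {K : Set ℍ} {Φ : ℝ → ℍ → ℍ} {V : ℍ → ℂ}
  {z₀ : ℍ} {T : ℝ}

lemma ec_cont (A : Lam Γ K Φ V) (hz : z₀ ∈ K) (hv : ∀ t, V (Φ t z₀) ≠ 0) {X : Type}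
    [TopologicalSpace X] {w : X → ℍ} {t : X → ℝ} (hw : Continuous w) (ht : Continuous t) :
    Continuous fun x => ec Φ V z₀ (w x) (t x) :=
  continuousOn_univ.1 (Dc_cont hw.continuousOn ((A.continuous hz).comp ht).continuousOn
    ((contV A hz).comp ht).continuousOn fun _ _ => hv _)

lemma order (A : Lam Γ K Φ V) (hz : z₀ ∈ K) (hv : ∀ t, V (Φ t z₀) ≠ 0) (hT : 0 < T) {σ η₀ η : ℝ}
    (hσ : 0 < σ)
    (h1 : ∀ t ∈ Set.Icc 0 (2 * T), ∀ w ∈ K, dist w (Φ t z₀) ≤ η₀ → ∀ s s', |s| ≤ σ → |s'| ≤ σ →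
      (ec Φ V z₀ (Φ s w) t).re = (ec Φ V z₀ (Φ s' w) t).re → s = s')
    (h2 : ∀ t ∈ Set.Icc 0 (2 * T), ∀ w ∈ K,
      dist w (Φ t z₀) ≤ η → ∃ s, |s| ≤ σ / 2 ∧ (ec Φ V z₀ (Φ s w) t).re = 0)
    {a b : ℍ} (ha : a ∈ K) (hb : b ∈ K)
    (ha' : ∀ t ∈ Set.Icc 0 (2 * T), dist (Φ t a) (Φ t z₀) ≤ min η₀ η)
    (hb' : ∀ t ∈ Set.Icc 0 (2 * T), dist (Φ t b) (Φ t z₀) ≤ min η₀ η)
    (h3 : (ec Φ V z₀ a 0).re = 0) (h4 : (ec Φ V z₀ b 0).re = 0)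
    (h5 : (ec Φ V z₀ a 0).im < (ec Φ V z₀ b 0).im) {t : ℝ} (ht : t ∈ Set.Icc 0 (2 * T))
    {s s' : ℝ} (hs : |s| ≤ σ / 2) (hs' : |s'| ≤ σ / 2)
    (h6 : (ec Φ V z₀ (Φ (s + t) a) t).re = 0) (h7 : (ec Φ V z₀ (Φ (s' + t) b) t).re = 0) :
    (ec Φ V z₀ (Φ (s + t) a) t).im < (ec Φ V z₀ (Φ (s' + t) b) t).im := by
  by_contra hcon
  have ca : Continuous fun p : ℝ × ℝ × ℝ => ec Φ V z₀ (Φ (p.2.1 + p.1) a) p.1 :=
    ec_cont A hz hv ((A.continuous ha).comp (by fun_prop)) continuous_fst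
  have cb : Continuous fun p : ℝ × ℝ × ℝ => ec Φ V z₀ (Φ (p.2.2 + p.1) b) p.1 :=
    ec_cont A hz hv ((A.continuous hb).comp (by fun_prop)) continuous_fst
  have hc : ∀ κ : ℝ, IsClosed (Prod.fst '' ((Set.Icc 0 (2 * T) ×ˢ Set.Icc (-(σ / 2)) (σ / 2) ×ˢ
      Set.Icc (-(σ / 2)) (σ / 2)) ∩ {p : ℝ × ℝ × ℝ | (ec Φ V z₀ (Φ (p.2.1 + p.1) a) p.1).re = 0 ∧
        (ec Φ V z₀ (Φ (p.2.2 + p.1) b) p.1).re = 0 ∧ κ * (ec Φ V z₀ (Φ (p.2.1 + p.1) a) p.1).im ≤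
          κ * (ec Φ V z₀ (Φ (p.2.2 + p.1) b) p.1).im})) := fun κ =>
    (((isCompact_Icc.prod (isCompact_Icc.prod isCompact_Icc)).inter_right
      ((isClosed_eq (Complex.continuous_re.comp ca) continuous_const).inter
        ((isClosed_eq (Complex.continuous_re.comp cb) continuous_const).inter
          (isClosed_le ((Complex.continuous_im.comp ca).const_mul κ)
            ((Complex.continuous_im.comp cb).const_mul κ))))).image continuous_fst).isClosed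
  have h0 : (0 : ℝ) ∈ Set.Icc 0 (2 * T) := ⟨le_rfl, by linarith⟩
  have h0' : (0 : ℝ) ∈ Set.Icc (-(σ / 2)) (σ / 2) := ⟨by linarith, by linarith⟩
  obtain ⟨r, hr, ⟨⟨_, u, u'⟩, ⟨⟨-, k1, k2⟩, k3, k4, k5⟩, rfl⟩,
      ⟨_, v, v'⟩, ⟨⟨-, l1, l2⟩, l3, l4, l5⟩, e⟩ :=
    isPreconnected_closed_iff.1 (isPreconnected_Icc (a := (0 : ℝ)) (b := 2 * T)) _ _ (hc 1)
      (hc (-1)) (fun r hr => by
        obtain ⟨u, k1, k2⟩ := h2 r hr _ (A.map r a ha) ((ha' r hr).trans (min_le_right _ _))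
        obtain ⟨u', k3, k4⟩ := h2 r hr _ (A.map r b hb) ((hb' r hr).trans (min_le_right _ _))
        rw [← A.add _ _ _ ha] at k2
        rw [← A.add _ _ _ hb] at k4
        rcases le_total (ec Φ V z₀ (Φ (u + r) a) r).im (ec Φ V z₀ (Φ (u' + r) b) r).im with k | k
        · exact Or.inl ⟨(r, u, u'), ⟨⟨hr, abs_le.1 k1, abs_le.1 k3⟩, k2, k4, by
            dsimp only
            linarith⟩, rfl⟩
        · exact Or.inr ⟨(r, u, u'), ⟨⟨hr, abs_le.1 k1, abs_le.1 k3⟩, k2, k4, by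
            dsimp only
            linarith⟩, rfl⟩)
      ⟨0, h0, (0, 0, 0), ⟨⟨h0, h0', h0'⟩, by
        simp only [Set.mem_ofPred_eq, add_zero, A.zero a ha, A.zero b hb]
        exact ⟨h3, h4, by linarith⟩⟩, rfl⟩
      ⟨t, ht, (t, s, s'), ⟨⟨ht, abs_le.1 hs, abs_le.1 hs'⟩, h6, h7, by
        dsimp only
        linarith⟩, rfl⟩
  dsimp only at *
  subst e
  have m1 : ∀ {y : ℝ}, y ∈ Set.Icc (-(σ / 2)) (σ / 2) → |y| ≤ σ := fun hy =>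
    (abs_le.2 hy).trans (by linarith)
  obtain rfl : u = v := h1 _ hr _ (A.map _ a ha) ((ha' _ hr).trans (min_le_left _ _)) u v
    (m1 k1) (m1 l1) (by rw [← A.add _ _ _ ha, ← A.add _ _ _ ha, k3, l3])
  obtain rfl : u' = v' := h1 _ hr _ (A.map _ b hb) ((hb' _ hr).trans (min_le_left _ _)) u' v'
    (m1 k2) (m1 l2) (by rw [← A.add _ _ _ hb, ← A.add _ _ _ hb, k4, l4])
  obtain ⟨r₀, e1⟩ : ∃ r₀, Φ (u + r₀) a = Φ (u' + r₀) b :=
    ⟨_, Dc_inj (hv _) (Complex.ext (k3.trans k4.symm) (by unfold ec at k5 l5; linarith))⟩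
  have e2 := congrArg (Φ (-(u + r₀))) e1
  rw [← A.add _ _ _ ha, ← A.add _ _ _ hb, neg_add_cancel, A.zero a ha] at e2
  have e3 : a = Φ (u' - u) b := by
    rw [e2]
    congr 1
    ring
  have e4 := h1 0 h0 b hb (by
    have := (hb' 0 h0).trans (min_le_left _ _)
    rwa [A.zero b hb] at this) (u' - u) 0
    (abs_le.2 ⟨by linarith [k1.2, k2.1], by linarith [k1.1, k2.2]⟩) (by rw [abs_zero]; exact hσ.le)
    (by rw [← e3, A.zero b hb, h3, h4])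
  rw [e4, A.zero b hb] at e3
  rw [e3] at h5
  exact lt_irrefl _ h5

lemma trap (F : Deck Γ) (A : Lam Γ K Φ V) (hT : 0 < T) {x : ℝ → ℍ} {D κ : ℝ} (hκ : |κ| ≤ 1)
    {Y : Set ℍ} (hY : Y ⊆ K)
    (h1 : ∀ b ∈ Y, ∀ s, |s| ≤ 2 * T + 1 → Metric.infDist (Φ s b) (Orb Γ x) < D)
    (h2 : ∀ b ∈ Y, ∃ b' ∈ Y, ∃ (g : Γ) (r : ℝ), r ∈ Set.Icc T (2 * T + 1) ∧ Φ (κ * r) b = g • b')
    {b : ℍ} (hb : b ∈ Y) {s : ℝ} (hs : 0 ≤ s) : Metric.infDist (Φ (κ * s) b) (Orb Γ x) < D := by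
  have key : ∀ n : ℕ, ∀ b ∈ Y, ∀ s, 0 ≤ s → s ≤ n * T →
      Metric.infDist (Φ (κ * s) b) (Orb Γ x) < D := by
    intro n
    induction n with
    | zero =>
      intro b hb s k1 k2
      refine h1 b hb _ ?_
      rw [show s = 0 by simpa using le_antisymm k2 (by simpa using k1), mul_zero, abs_zero]
      linarith
    | succ n ih =>
      intro b hb s k1 k2
      by_cases k : s ≤ 2 * T + 1
      · refine h1 b hb _ ?_
        rw [abs_mul, abs_of_nonneg k1]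
        nlinarith
      · obtain ⟨b', hb', g, r, hr, e⟩ := h2 b hb
        push_cast at k2
        rw [show κ * s = κ * (s - r) + κ * r by ring, A.add _ _ _ (hY hb), e,
          A.comm _ _ _ (hY hb'), infDist_orb_smul F]
        exact ih b' hb' _ (by linarith [hr.2]) (by linarith [hr.1])
  obtain ⟨n, hn⟩ := exists_nat_ge (s / T)
  exact key n b hb s hs ((div_le_iff₀ hT).1 hn)

theorem one_sided (F : Deck Γ) (A : Lam Γ K Φ V) (hz : z₀ ∈ K) (hv : ∀ t, V (Φ t z₀) ≠ 0)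
    (hT : 0 < T) {γ : Γ} (hp : Φ T z₀ = γ • z₀) (ho : ¬Ori γ)
    (hemb : ∀ τ, 0 < τ → ∃ ε : ℝ, 0 < ε ∧ ∀ (δ : Γ) (t t' : ℝ),
      dist (δ • Φ t' z₀) (Φ t z₀) ≤ ε → ∃ s, |s| ≤ τ ∧ δ • Φ t' z₀ = Φ (t + s) z₀)
    (hF : ∀ w ∈ K, ∀ δ, 0 < δ → ∀ a,
      (∃ t, a ≤ t ∧ Metric.infDist (Φ t w) (Orb Γ fun t => Φ t z₀) < δ) ∧
        ∃ t, t ≤ a ∧ Metric.infDist (Φ t w) (Orb Γ fun t => Φ t z₀) < δ)
    {w : ℍ} (hw : w ∈ K) : w ∈ Orb Γ fun t => Φ t z₀ := by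
  by_contra hwO
  set O := Orb Γ fun t => Φ t z₀ with hO
  have hper : Per (fun t => Φ t z₀) γ T := ⟨hT, fun t => by
    show Φ (t + T) z₀ = γ • Φ t z₀
    rw [A.add t T _ hz, hp, A.comm _ _ _ hz]⟩
  have hcl : IsClosed O := hper.isClosed_orb F (A.continuous hz)
  have hne : O.Nonempty := ⟨_, mem_orb _ 1 0⟩
  have hinv : ∀ c ∈ K, ∀ t, Φ t c ∈ O → c ∈ O := by
    rintro c hc t ⟨δ, s, e⟩
    refine ⟨δ, -t + s, ?_⟩
    have e1 := congrArg (Φ (-t)) e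
    rwa [← A.add _ _ _ hc, neg_add_cancel, A.zero c hc, A.comm _ _ _ (A.map _ _ hz),
      ← A.add _ _ _ hz] at e1
  have F2 : ∀ c ∈ K, c ∉ O → ∀ (r : ℝ) (g : Γ), 0 < r → Φ r c = g • c → False := by
    intro c hc hcO r g hr e
    have c1 : Continuous fun t => Metric.infDist (Φ t c) O :=
      (Metric.continuous_infDist_pt O).comp (A.continuous hc)
    obtain ⟨t₀, -, h1⟩ := isCompact_Icc.exists_isMinOn (Set.nonempty_Icc.2 hr.le) c1.continuousOn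
    obtain ⟨t, -, h2⟩ := (hF c hc _ ((hcl.notMem_iff_infDist_pos hne).1
      fun h => hcO (hinv c hc t₀ h)) 0).1
    have h3 : Function.Periodic (fun t => Metric.infDist (Φ t c) O) r := fun t => by
      show Metric.infDist (Φ (t + r) c) O = Metric.infDist (Φ t c) O
      rw [A.add _ _ _ hc, e, A.comm _ _ _ hc, infDist_orb_smul F]
    obtain ⟨y, h4, h5⟩ := h3.exists_mem_Ico₀ hr t
    have h6 : Metric.infDist (Φ t₀ c) O ≤ Metric.infDist (Φ y c) O :=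
      h1 (Set.Ico_subset_Icc_self h4)
    linarith
  have hD : 0 < Metric.infDist w O := (hcl.notMem_iff_infDist_pos hne).1 hwO
  set D := Metric.infDist w O with hDdef
  obtain ⟨C, hC, hd⟩ := A.dist_le
  obtain ⟨σ, η₀, hσ, hσ1, hσT, hη₀, huniq, hhit⟩ := cross A hz hv hT
  obtain ⟨η, hη, hhit'⟩ := hhit (σ / 2) (half_pos hσ) (by linarith)
  obtain ⟨ε₀, hε₀, hemb'⟩ := hemb σ hσ
  obtain ⟨ρ₀, hρ₀, hclose⟩ := close A hz T (lt_min (lt_min hη₀ hη) (half_pos hD))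
  have z0 := A.zero z₀ hz
  have i0 : (0 : ℝ) ∈ Set.Icc 0 (2 * T) := ⟨le_rfl, by linarith⟩
  have i1 : T ∈ Set.Icc 0 (2 * T) := ⟨hT.le, by linarith⟩
  have i2 : 2 * T ∈ Set.Icc 0 (2 * T) := ⟨by linarith, le_rfl⟩
  have hp2 : Φ (2 * T) z₀ = (γ * γ) • z₀ := by
    rw [two_mul, A.add _ _ _ hz, hp, A.comm _ _ _ hz, hp, mul_smul]
  have hp0 : Φ 0 z₀ = (1 : Γ) • z₀ := by rw [z0, one_smul]
  have sg1 : sg γ = -1 := if_neg ho
  have sg2 : sg (γ * γ) = 1 := by rw [F.sg_mul, sg1]; norm_num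
  set ρ₁ := min ρ₀ ε₀ with hρ₁
  have hρ₁0 : 0 < ρ₁ := lt_min hρ₀ hε₀
  set h : ℍ → ℝ := fun a => (ec Φ V z₀ a 0).im with hh
  set S : ℝ → Set ℍ := fun ρ => {a | a ∈ K ∧ dist a z₀ ≤ ρ ∧ (ec Φ V z₀ a 0).re = 0} with hS
  have hcl0 : ∀ a ∈ S ρ₁, ∀ s, |s| ≤ 2 * T + 1 →
      dist (Φ s a) (Φ s z₀) ≤ min (min η₀ η) (D / 2) := fun a ha s hs => by
    have := hclose 0 i0 a ha.1 (by rw [z0]; exact ha.2.1.trans (min_le_left _ _)) s hs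
    rwa [add_zero] at this
  have hBC : ∀ a ∈ S ρ₁, ∀ s, |s| ≤ 2 * T + 1 → Metric.infDist (Φ s a) O < D := fun a ha s hs => by
    have h1 := Metric.infDist_le_dist_of_mem (x := Φ s a) (mem_orb (fun t => Φ t z₀) (1 : Γ) s)
    rw [one_smul] at h1
    linarith [(hcl0 a ha s hs).trans (min_le_right _ _)]
  have hec : ∀ (g : Γ) (t : ℝ), Φ t z₀ = g • z₀ → ∀ a : ℍ,
      (ec Φ V z₀ (g • a) t).re = (ec Φ V z₀ a 0).re ∧ (ec Φ V z₀ (g • a) t).im = sg g * h a := by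
    intro g t e a
    have := Dc_smul F g a z₀ (v := V z₀) (by simpa only [z0] using hv 0)
    simp only [hh, ec, e, z0, A.eqv F g hz]
    exact this
  have hord : ∀ (g : Γ), ∀ t ∈ Set.Icc 0 (2 * T), Φ t z₀ = g • z₀ → ∀ a ∈ S ρ₁, ∀ b ∈ S ρ₁,
      h a < h b → ∀ (a' b' : ℍ) (s s' : ℝ), (ec Φ V z₀ a' 0).re = 0 → (ec Φ V z₀ b' 0).re = 0 →
      |s| ≤ σ / 2 → |s'| ≤ σ / 2 → Φ (s + t) a = g • a' → Φ (s' + t) b = g • b' →
      sg g * h a' < sg g * h b' := by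
    intro g t ht e a ha b hb hab a' b' s s' k1 k2 k3 k4 k5 k6
    have k7 : ∀ a ∈ S ρ₁, ∀ t ∈ Set.Icc 0 (2 * T), dist (Φ t a) (Φ t z₀) ≤ min η₀ η :=
      fun a ha t ht => (hcl0 a ha t (abs_le.2 ⟨by linarith [ht.1], by linarith [ht.2]⟩)).trans
        (min_le_left _ _)
    have := order A hz hv hT hσ huniq hhit' ha.1 hb.1 (k7 a ha) (k7 b hb) ha.2.2 hb.2.2 hab ht k3 k4
      (by rw [k5, (hec g t e a').1, k1]) (by rw [k6, (hec g t e b').1, k2])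
    rwa [k5, k6, (hec g t e a').2, (hec g t e b').2] at this
  have e0 : ec Φ V z₀ z₀ 0 = 0 := by rw [ec, z0, Dc_self]
  have hz0 : h z₀ = 0 := by simp only [hh, e0, Complex.zero_im]
  have hr0 : (ec Φ V z₀ z₀ 0).re = 0 := by rw [e0, Complex.zero_re]
  have hzS : z₀ ∈ S ρ₁ := ⟨hz, by rw [dist_self]; exact hρ₁0.le, hr0⟩
  have a0 : |(0 : ℝ)| ≤ σ / 2 := by rw [abs_zero]; linarith
  have hinj : ∀ a b : ℍ, (ec Φ V z₀ a 0).re = 0 → (ec Φ V z₀ b 0).re = 0 → h a = h b → a = b :=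
    fun a b k1 k2 k3 => Dc_inj (hv 0) (Complex.ext (k1.trans k2.symm) k3)
  have hsize : ∀ a b : ℍ, (ec Φ V z₀ a 0).re = 0 → (ec Φ V z₀ b 0).re = 0 → 0 ≤ h a → h a ≤ h b →
      dist a z₀ ≤ dist b z₀ := by
    intro a b k1 k2 k3 k4
    have := Dc_size (w := a) (w' := b) (p := Φ 0 z₀) (hv 0) (by
      show ‖ec Φ V z₀ a 0‖ ≤ ‖ec Φ V z₀ b 0‖
      rw [← Complex.abs_im_eq_norm.2 k1, ← Complex.abs_im_eq_norm.2 k2]
      exact abs_le_abs_of_nonneg k3 k4)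
    rwa [z0] at this
  have hE : ∀ a ∈ S ρ₁, a ∈ O → a = z₀ := by
    rintro a ha ⟨δ, t, rfl⟩
    obtain ⟨s, k1, k2⟩ := hemb' δ 0 t (by rw [z0]; exact ha.2.1.trans (min_le_right _ _))
    have k3 := ha.2.2
    dsimp only at k3 ⊢
    rw [k2, zero_add] at k3 ⊢
    rw [huniq 0 i0 z₀ hz (by rw [z0, dist_self]; exact hη₀.le) s 0 k1
      (by rw [abs_zero]; exact hσ.le) (by rw [k3, z0, hr0]), z0]
  have hTF : ∀ ρ, 0 < ρ → ∃ ρ', 0 < ρ' ∧ ρ' ≤ ρ ∧ ∀ t₀ ∈ Set.Icc 0 (2 * T), ∀ c ∈ K,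
      dist c (Φ t₀ z₀) ≤ ρ' → ∀ (g : Γ), ∀ t ∈ Set.Icc 0 (2 * T), Φ t z₀ = g • z₀ →
        ∃ a ∈ S ρ, ∃ s, |s| ≤ σ / 2 ∧ Φ (s + (t - t₀)) c = g • a := by
    intro ρ hρ
    obtain ⟨η', k1, k2⟩ := hhit (min (σ / 2) (ρ / (2 * (C + 1))))
      (lt_min (half_pos hσ) (by positivity)) ((min_le_left _ _).trans (by linarith))
    obtain ⟨ρ', k3, k4⟩ := close A hz T (lt_min k1 (half_pos hρ))
    refine ⟨min ρ' ρ, lt_min k3 hρ, min_le_right _ _, fun t₀ ht₀ c hc k5 g t ht e => ?_⟩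
    have k6 := k4 t₀ ht₀ c hc (k5.trans (min_le_left _ _)) (t - t₀)
      (abs_le.2 ⟨by linarith [ht.1, ht₀.2], by linarith [ht.2, ht₀.1]⟩)
    rw [sub_add_cancel, e, ← F.iso g⁻¹, inv_smul_smul] at k6
    have k7 : g⁻¹ • Φ (t - t₀) c ∈ K := A.smul _ _ (A.map _ _ hc)
    obtain ⟨s, k8, k9⟩ := k2 0 i0 _ k7 (by rw [z0]; exact k6.trans (min_le_left _ _))
    refine ⟨_, ⟨A.map s _ k7, ?_, k9⟩, s, k8.trans (min_le_left _ _), ?_⟩
    · have l1 := hd _ k7 s 0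
      rw [A.zero _ k7, sub_zero] at l1
      have l2 := (le_div_iff₀ (by positivity)).1 (k8.trans (min_le_right _ _))
      have l3 := dist_triangle (Φ s (g⁻¹ • Φ (t - t₀) c)) (g⁻¹ • Φ (t - t₀) c) z₀
      nlinarith [k6.trans (min_le_right _ _), abs_nonneg s]
    · rw [A.comm _ _ _ (A.map _ _ hc), smul_inv_smul, A.add _ _ _ hc]
  have hmono : ∀ {ρ ρ' : ℝ}, ρ ≤ ρ' → ∀ a ∈ S ρ, a ∈ S ρ' :=
    fun k a ha => ⟨ha.1, ha.2.1.trans k, ha.2.2⟩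
  obtain ⟨ρ₂, hρ₂, hρ₂₁, hTF₂⟩ := hTF ρ₁ hρ₁0
  have fwd : ∀ a ∈ S ρ₂, ∃ a' ∈ S ρ₁, ∃ s, |s| ≤ σ / 2 ∧ Φ (s + 2 * T) a = (γ * γ) • a' := by
    intro a ha
    have := hTF₂ 0 i0 a ha.1 (by rw [z0]; exact ha.2.1) _ _ i2 hp2
    rwa [sub_zero] at this
  have ord2 : ∀ a ∈ S ρ₁, ∀ b ∈ S ρ₁, h a < h b → ∀ a' ∈ S ρ₁, ∀ b' ∈ S ρ₁, ∀ s s' : ℝ,
      |s| ≤ σ / 2 → |s'| ≤ σ / 2 → Φ (s + 2 * T) a = (γ * γ) • a' →
      Φ (s' + 2 * T) b = (γ * γ) • b' → h a' < h b' := by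
    intro a ha b hb k a' ha' b' hb' s s' k1 k2 k3 k4
    have := hord _ _ i2 hp2 a ha b hb k a' b' s s' ha'.2.2 hb'.2.2 k1 k2 k3 k4
    rwa [sg2, one_mul, one_mul] at this
  have z2 : Φ (0 + 2 * T) z₀ = (γ * γ) • z₀ := by rw [zero_add, hp2]
  have hEn : ∀ ε, 0 < ε → ε ≤ ρ₁ → ∃ ε', 0 < ε' ∧ ∀ t₁, Metric.infDist (Φ t₁ w) O < ε' →
      ∃ b ∈ S ε, 0 < h b ∧ ∃ (g : Γ) (r : ℝ), |r| ≤ 2 * T + 2 ∧ Φ (t₁ + r) w = g • b := by
    intro ε k1 k2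
    obtain ⟨ε₁, k3, k4, k5⟩ := hTF ε k1
    obtain ⟨ε₂, k6, -, k7⟩ := hTF ε₁ k3
    refine ⟨ε₂, k6, fun t₁ k8 => ?_⟩
    obtain ⟨_, ⟨δ, t, rfl⟩, k9⟩ := (Metric.infDist_lt_iff hne).1 k8
    obtain ⟨j, l1, l2⟩ := hper.reduce t
    dsimp only at l2 k9
    rw [l2, ← mul_smul, ← F.iso (δ * γ ^ j)⁻¹, inv_smul_smul] at k9
    have l3 : (δ * γ ^ j)⁻¹ • Φ t₁ w ∈ K := A.smul _ _ (A.map _ _ hw)
    obtain ⟨a, ha, s, l4, l5⟩ := k7 _ ⟨l1.1, by linarith [l1.2]⟩ _ l3 k9.le 1 0 i0 hp0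
    rw [A.comm _ _ _ (A.map _ _ hw), ← A.add _ _ _ hw, one_smul, inv_smul_eq_iff] at l5
    have l6 := abs_le.1 l4
    have ha1 : a ∈ S ρ₁ := hmono (k4.trans k2) a ha
    rcases lt_trichotomy (h a) 0 with l | l | l
    · obtain ⟨b, hb, s', l7, l8⟩ := k5 0 i0 a ha.1 (by rw [z0]; exact ha.2.1) _ _ i1 hp
      rw [sub_zero] at l8
      have l9 := hord _ _ i1 hp a ha1 z₀ hzS (by rwa [hz0]) b z₀ s' 0 hb.2.2 hr0 l7 a0 l8
        (by rw [zero_add, hp])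
      rw [sg1, hz0] at l9
      have l10 := abs_le.1 l7
      refine ⟨b, hb, by linarith, δ * γ ^ j * γ, s' + T + (s + (0 - (t - j * T))),
        abs_le.2 ⟨by linarith [l1.2], by linarith [l1.1]⟩, ?_⟩
      rw [mul_smul, ← l8, ← A.comm _ _ _ ha.1, ← l5, ← A.add _ _ _ hw]
      congr 1
      ring
    · exfalso
      rw [hinj a z₀ ha.2.2 hr0 (l.trans hz0.symm)] at l5
      exact hwO (hinv w hw _ ⟨δ * γ ^ j, 0, by rw [l5]; simp only [z0]⟩)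
    · refine ⟨a, hmono k4 a ha, l, δ * γ ^ j, s + (0 - (t - j * T)),
        abs_le.2 ⟨by linarith [l1.2], by linarith [l1.1]⟩, ?_⟩
      rw [← l5, add_comm]
  have hback : ∀ (b : ℍ) (g : Γ) (t : ℝ), b ∈ K → Φ t w = g • b →
      Metric.infDist (Φ (-t) b) O = D := by
    intro b g t hb e
    have e1 := congrArg (Φ (-t)) e
    rw [← A.add _ _ _ hw, neg_add_cancel, A.zero w hw, A.comm _ _ _ hb] at e1
    rw [hDdef, e1, infDist_orb_smul F]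
  have hup : ∀ ε, 0 < ε → ε ≤ ρ₂ → ∃ b ∈ S ε, 0 < h b ∧ ∃ b' ∈ S ρ₁, ∃ s, |s| ≤ σ / 2 ∧
      Φ (s + 2 * T) b = (γ * γ) • b' ∧ h b < h b' := by
    intro ε k1 k2
    by_contra hcon
    push Not at hcon
    obtain ⟨ε', k3, k4⟩ := hEn ε k1 (k2.trans hρ₂₁)
    obtain ⟨t₁, k5, k6⟩ := (hF w hw ε' k3 (-(2 * T + 2))).2
    obtain ⟨b, hb, k7, g, r, k8, k9⟩ := k4 t₁ k6
    have := trap F A hT (κ := 1) (by simp) (Y := {b | b ∈ S ε ∧ 0 < h b}) (fun b hb => hb.1.1)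
      (fun b hb => hBC b (hmono (k2.trans hρ₂₁) b hb.1)) (fun b hb => by
        obtain ⟨b', hb', s, l1, l2⟩ := fwd b (hmono k2 b hb.1)
        have l3 := ord2 z₀ hzS b (hmono (k2.trans hρ₂₁) b hb.1) (by rw [hz0]; exact hb.2) z₀ hzS
          b' hb' 0 s a0 l1 z2 l2
        rw [hz0] at l3
        have l4 := abs_le.1 l1
        exact ⟨b', ⟨⟨hb'.1, (hsize b' b hb'.2.2 hb.1.2.2 l3.le
          (hcon b hb.1 hb.2 b' hb' s l1 l2)).trans hb.1.2.1, hb'.2.2⟩, l3⟩, γ * γ, s + 2 * T,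
          ⟨by linarith, by linarith⟩, by rw [one_mul, l2]⟩) ⟨hb, k7⟩ (s := -(t₁ + r))
      (by linarith [(abs_le.1 k8).2])
    rw [one_mul, hback b g _ hb.1 k9] at this
    exact lt_irrefl _ this
  have hdown : ∃ a' ∈ S ρ₂, 0 < h a' ∧ ∃ a ∈ S ρ₁, ∃ s, |s| ≤ σ / 2 ∧
      Φ (s + 2 * T) a = (γ * γ) • a' ∧ h a' < h a := by
    by_contra hcon
    push Not at hcon
    obtain ⟨ε', k3, k4⟩ := hEn ρ₂ hρ₂ hρ₂₁
    obtain ⟨t₁, k5, k6⟩ := (hF w hw ε' k3 (2 * T + 2)).1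
    obtain ⟨b, hb, k7, g, r, k8, k9⟩ := k4 t₁ k6
    have := trap F A hT (κ := -1) (by simp) (Y := {b | b ∈ S ρ₂ ∧ 0 < h b}) (fun b hb => hb.1.1)
      (fun b hb => hBC b (hmono hρ₂₁ b hb.1)) (fun b hb => by
        obtain ⟨a, ha, s, l1, l2⟩ := hTF₂ _ i2 _ (A.smul (γ * γ) b hb.1.1)
          (by rw [hp2, F.iso]; exact hb.1.2.1) 1 0 i0 hp0
        have l4 := abs_le.1 l1
        rw [one_smul] at l2
        have l5 : Φ (-s + 2 * T) a = (γ * γ) • b := by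
          rw [← l2, ← A.add _ _ _ (A.smul _ b hb.1.1), show -s + 2 * T + (s + (0 - 2 * T)) = 0 by
            ring, A.zero _ (A.smul _ b hb.1.1)]
        have l6 : |-s| ≤ σ / 2 := by rwa [abs_neg]
        have l7 : 0 < h a := by
          rcases lt_trichotomy (h a) 0 with l | l | l
          · have := ord2 a ha z₀ hzS (by rwa [hz0]) b (hmono hρ₂₁ b hb.1) z₀ hzS _ 0 l6 a0 l5 z2
            rw [hz0] at this
            linarith [hb.2]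
          · rw [hinj a z₀ ha.2.2 hr0 (l.trans hz0.symm)] at l5
            have l8 := hE b (hmono hρ₂₁ b hb.1) ((smul_mem_orb (γ * γ)).1
              ⟨1, _, by rw [← l5, one_smul]⟩)
            have l9 := hb.2
            rw [l8, hz0] at l9
            exact absurd l9 (lt_irrefl _)
          · exact l
        refine ⟨a, ⟨⟨ha.1, (hsize a b ha.2.2 hb.1.2.2 l7.le
          (hcon b hb.1 hb.2 a ha _ l6 l5)).trans hb.1.2.1, ha.2.2⟩, l7⟩, (γ * γ)⁻¹, -s + 2 * T,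
          ⟨by linarith, by linarith⟩, ?_⟩
        rw [eq_inv_smul_iff, ← A.comm _ _ _ hb.1.1, ← l2]
        congr 1
        ring) ⟨hb, k7⟩ (s := t₁ + r) (by linarith [(abs_le.1 k8).1])
    rw [neg_one_mul, hback b g _ hb.1 k9] at this
    exact lt_irrefl _ this
  obtain ⟨a', ha', p1, a, ha, s, p2, p3, p4⟩ := hdown
  have p5 : 0 < dist a' z₀ := dist_pos.2 fun e => by
    rw [e, hz0] at p1
    exact lt_irrefl _ p1
  obtain ⟨b, hb, p6, b', hb', s', p7, p8, p9⟩ := hup (min ρ₂ (dist a' z₀ / 2))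
    (lt_min hρ₂ (half_pos p5)) (min_le_left _ _)
  have p10 : h b ≤ h a' := by
    by_contra k
    linarith [hsize a' b ha'.2.2 hb.2.2 p1.le (not_le.1 k).le, hb.2.1.trans (min_le_right _ _)]
  have cE : Continuous fun a : ℍ => ec Φ V z₀ a 0 := ec_cont A hz hv continuous_id continuous_const
  have ch : Continuous h := Complex.continuous_im.comp cE
  have cr := Complex.continuous_re.comp cE
  have hcpt : IsCompact (((fun p : ℝ × ℍ => (p.2, (γ * γ)⁻¹ • Φ (p.1 + 2 * T) p.2)) ''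
      (Set.Icc (-(σ / 2)) (σ / 2) ×ˢ (K ∩ Metric.closedBall z₀ ρ₂))) ∩
      {q : ℍ × ℍ | (ec Φ V z₀ q.1 0).re = 0 ∧ (ec Φ V z₀ q.2 0).re = 0 ∧ h b ≤ h q.1 ∧
        h q.1 ≤ h a' ∧ h q.1 ≤ h q.2 ∧ dist q.2 z₀ ≤ ρ₁}) :=
    ((isCompact_Icc.prod ((isCompact_closedBall _ _).inter_left A.closed)).image_of_continuousOn
      (continuousOn_snd.prodMk ((F.cont _).comp_continuousOn (A.cont.comp
        (f := fun p : ℝ × ℍ => (p.1 + 2 * T, p.2)) (by fun_prop)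
          fun p hp => ⟨trivial, hp.2.1⟩)))).inter_right
      ((isClosed_eq (cr.comp continuous_fst) continuous_const).inter
        ((isClosed_eq (cr.comp continuous_snd) continuous_const).inter
          ((isClosed_le continuous_const (ch.comp continuous_fst)).inter
            ((isClosed_le (ch.comp continuous_fst) continuous_const).inter
              ((isClosed_le (ch.comp continuous_fst) (ch.comp continuous_snd)).inter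
                (isClosed_le (continuous_snd.dist continuous_const) continuous_const))))))
  obtain ⟨⟨c, c'⟩, ⟨⟨⟨u, c₀⟩, ⟨q1, q2, q3⟩, q4⟩, q5, q6, q7, q8, q9, q10⟩, hmax⟩ :=
    hcpt.exists_isMaxOn ⟨(b, b'), ⟨(s', b), ⟨abs_le.1 p7, hb.1, hb.2.1.trans (min_le_left _ _)⟩, by
      simp only [p8, inv_smul_smul]⟩, hb.2.2, hb'.2.2, le_rfl, p10, p9.le, hb'.2.1⟩
      (ch.comp continuous_fst).continuousOn
  obtain ⟨rfl, q11⟩ := Prod.mk.inj q4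
  dsimp only at *
  have q12 : c' ∈ K := q11 ▸ A.smul _ _ (A.map _ _ q2)
  rw [inv_smul_eq_iff] at q11
  have hc : c₀ ∈ S ρ₁ := ⟨q2, le_trans q3 hρ₂₁, q5⟩
  have hc' : c' ∈ S ρ₁ := ⟨q12, q10, q6⟩
  rcases q9.eq_or_lt with k | k
  · rw [← hinj c₀ c' q5 q6 k] at q11
    refine F2 c₀ q2 (fun k1 => ?_) _ _ (by linarith [q1.1]) q11
    rw [hE c₀ hc k1, hz0] at q7
    linarith
  · have k1 := ord2 c₀ hc a ha (by linarith) c' hc' a' (hmono hρ₂₁ a' ha') u s (abs_le.2 q1) p2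
      q11 p3
    have k2 : c' ∈ S ρ₂ := ⟨q12, (hsize c' a' q6 ha'.2.2 (by linarith) k1.le).trans ha'.2.1, q6⟩
    obtain ⟨c'', k3, u', k4, k5⟩ := fwd c' k2
    have k6 := ord2 c₀ hc c' hc' k c' hc' c'' k3 u u' (abs_le.2 q1) k4 q11 k5
    have k7 : h c' ≤ h c₀ := hmax (a := (c', c'')) ⟨⟨(u', c'), ⟨abs_le.1 k4, q12, k2.2.1⟩, by
      simp only [k5, inv_smul_smul]⟩, q6, k3.2.2, by dsimp only; linarith, k1.le, k6.le, k3.2.1⟩
    linarith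

end Pool.Agent.FS.OneOrbit
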