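import Pool.Agent.Lib.MP_5bb885_an.T18Main
import Pool.Agent.FS.OneOrbit.Spiral
import Pool.Agent.FS.OneOrbit.Band

/-!
For every Tonelli Lagrangian, a residual set of potentials and almost every class the Aubry set
is one closed orbit, hyperbolic unless it is one-sided.
-/

namespace Pool.Agent.FS.OneOrbit

open Pool.Agent.Lib.MP_5bb885_an.Gen UpperHalfPlane MeasureTheory Filter Topology

variable {Γ : Type} [Group Γ] [MulAction Γ ℍ] {L : ℂ × ℂ → ℝ} {Ls : ℕ → ℂ × ℂ → ℝ}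
  {c : Γ → ℝ} {cs : ℕ → Γ → ℝ} {b : ℕ}

theorem residual_gen (F : Deck Γ) (hL : Tonelli Γ L) (e : (Fin b → ℝ) ≃ₗ[ℝ] Coh Γ)
    (Q : (ℂ × ℂ → ℝ) → (Γ → ℝ) → Prop)
    (hQ : ∀ (L : ℂ × ℂ → ℝ) (Ls : ℕ → ℂ × ℂ → ℝ) (c : Γ → ℝ) (cs : ℕ → Γ → ℝ),
      LSeq Γ atTop L Ls → c ∈ Coh Γ → (∀ n, cs n ∈ Coh Γ) → CLim atTop c cs → Q L c →
        ∀ᶠ n in atTop, Q (Ls n) (cs n))
    (h : ∀ f, Pot Γ f → ∀ (k : ℕ) (δ : ℝ), 0 < δ →
      ∃ g, Pot Γ g ∧ Near k δ f g ∧ ∀ᵐ t, Q (addP L g) (e t : Γ → ℝ)) :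
    ∃ O : ℕ → Set (ℂ → ℝ), (∀ n, OpenDense Γ (O n)) ∧ ∀ f, Pot Γ f → (∀ n, f ∈ O n) →
      ∀ᵐ t, Q (addP L f) (e t : Γ → ℝ) := by
  have hop : ∀ L' : ℂ × ℂ → ℝ, Tonelli Γ L' → IsOpen {t | Q L' (e t : Γ → ℝ)} := by
    intro L' hL'
    rw [← isClosed_compl_iff]
    refine IsSeqClosed.isClosed fun ts t hts hl hG => ?_
    obtain ⟨n, hn⟩ := (hQ _ _ _ _ (LSeq.const F hL' atTop) (e t).2 (fun n => (e (ts n)).2)
      (clim_of_tendsto F e hl) hG).exists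
    exact hts n hn
  have hpos : ∀ n : ℕ, (0 : ENNReal) < ((n : ENNReal) + 1)⁻¹ := fun n =>
    ENNReal.inv_pos.2 (by simp)
  refine ⟨fun n => {f | Pot Γ f → volume (Metric.closedBall (0 : Fin b → ℝ) n ∩
    {t | Q (addP L f) (e t : Γ → ℝ)}ᶜ) < ((n : ENNReal) + 1)⁻¹}, fun n => ⟨?_, ?_⟩, ?_⟩
  · intro f hfO hf
    by_contra hcon
    push Not at hcon
    choose g hg hN hO using fun k : ℕ => hcon k (1 / ((k : ℝ) + 1)) (by positivity)
    have hL' : Tonelli Γ (addP L f) := hL.add F hf.c2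
    have hs := lseq_of_toZero F hL' (fun k => ((hg k).sub hf).c2) (toZero_of_near hN)
    have hs' : LSeq Γ atTop (addP L f) fun k => addP L (g k) := by
      convert hs using 2 with k
      rw [addP_addP, add_sub_cancel]
    set A : ℕ → Set (Fin b → ℝ) := fun k => Metric.closedBall (0 : Fin b → ℝ) n ∩
      {t | Q (addP L (g k)) (e t : Γ → ℝ)}ᶜ with hA
    have hAm : ∀ k, MeasurableSet (A k) := fun k =>
      Metric.isClosed_closedBall.measurableSet.inter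
        (hop _ (hL.add F (hg k).c2)).measurableSet.compl
    have hAr : ∀ k, ((n : ENNReal) + 1)⁻¹ ≤ volume (A k) := fun k => by
      by_contra hlt
      exact hO k fun _ => not_le.1 hlt
    set B : ℕ → Set (Fin b → ℝ) := fun m => ⋃ k, ⋃ _ : m ≤ k, A k with hB
    have hBm : ∀ m, MeasurableSet (B m) := fun m =>
      MeasurableSet.iUnion fun k => MeasurableSet.iUnion fun _ => hAm k
    have hanti : Antitone B := fun m m' hm t ht => by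
      simp only [hB, Set.mem_iUnion] at ht ⊢
      obtain ⟨k, hk, ht⟩ := ht
      exact ⟨k, hm.trans hk, ht⟩
    have hsub : ∀ m, B m ⊆ Metric.closedBall (0 : Fin b → ℝ) n := fun m t ht => by
      simp only [hB, Set.mem_iUnion] at ht
      obtain ⟨k, _, ht⟩ := ht
      exact ht.1
    have hfin : volume (B 0) ≠ ⊤ :=
      ((measure_mono (hsub 0)).trans_lt (isCompact_closedBall _ _).measure_lt_top).ne
    have hlim := tendsto_measure_iInter_atTop (μ := volume) (fun m => (hBm m).nullMeasurableSet)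
      hanti ⟨0, hfin⟩
    have hge : ((n : ENNReal) + 1)⁻¹ ≤ volume (⋂ m, B m) := by
      refine ge_of_tendsto' hlim fun m => (hAr m).trans (measure_mono fun t ht => ?_)
      simp only [hB, Set.mem_iUnion]
      exact ⟨m, le_rfl, ht⟩
    have hin : (⋂ m, B m) ⊆ Metric.closedBall (0 : Fin b → ℝ) n ∩
        {t | Q (addP L f) (e t : Γ → ℝ)}ᶜ := fun t ht => by
      rw [Set.mem_iInter] at ht
      refine ⟨hsub 0 (ht 0), fun hG => ?_⟩
      obtain ⟨m, hm⟩ := eventually_atTop.1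
        (hQ _ _ _ _ hs' (e t).2 (fun _ => (e t).2) (CLim.const _ _) hG)
      have h1 := ht m
      simp only [hB, Set.mem_iUnion] at h1
      obtain ⟨k, hk, h1⟩ := h1
      exact h1.2 (hm k hk)
    exact absurd (hfO hf) (not_lt.2 (hge.trans (measure_mono hin)))
  · intro f hf k δ hδ
    obtain ⟨g, hg, hN, hae⟩ := h f hf k δ hδ
    refine ⟨g, fun _ => ?_, hg, hN⟩
    rw [measure_mono_null Set.inter_subset_right hae]
    exact hpos n
  · intro f hf hO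
    have h0 : ∀ m : ℕ, volume (Metric.closedBall (0 : Fin b → ℝ) m ∩
        {t | Q (addP L f) (e t : Γ → ℝ)}ᶜ) = 0 := fun m => by
      refine le_antisymm ?_ zero_le
      have hl : Tendsto (fun n : ℕ => ((n : ENNReal) + 1)⁻¹) atTop (𝓝 0) := by
        refine (ENNReal.tendsto_inv_nat_nhds_zero.comp (tendsto_add_atTop_nat 1)).congr fun n => ?_
        simp
      refine ge_of_tendsto hl (eventually_atTop.2 ⟨m, fun n hn => ?_⟩)
      refine le_trans (measure_mono ?_) (hO n hf).le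
      exact Set.inter_subset_inter_left _
        (Metric.closedBall_subset_closedBall (by exact_mod_cast hn))
    refine measure_mono_null (fun t ht => ?_) (measure_iUnion_null h0)
    obtain ⟨m, hm⟩ := exists_nat_ge (dist t 0)
    exact Set.mem_iUnion.2 ⟨m, hm, ht⟩

lemma usc (F : Deck Γ) {l : Ultrafilter ℕ} (h : LSeq Γ l L Ls) (hc : c ∈ Coh Γ)
    (hcs : ∀ n, cs n ∈ Coh Γ) (hl : CLim l c cs) {us : ℕ → ℍ → ℝ}
    (hu : ∀ n, Eqv (cs n) (us n)) (hd : ∀ n, Dom (Ls n) (crit (Ls n) (cs n)) (us n))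
    {ys : ℕ → ℝ → ℍ} (hy : ∀ n, Cal (Ls n) (crit (Ls n) (cs n)) (us n) (ys n)) :
    ∃ (δ : ℕ → Γ) (u : ℍ → ℝ) (y : ℝ → ℍ), Eqv c u ∧ Dom L (crit L c) u ∧ Cal L (crit L c) u y ∧
      ∀ t, Tendsto (fun n => δ n • ys n t) l (𝓝 (y t)) := by
  have hk := h.tendsto_crit F hc hcs hl
  obtain ⟨w, h1, h2, h3⟩ := h.lim_dom hk hd hl hu
  obtain ⟨R, hR⟩ := F.cpt
  choose δ hδ using fun n => hR (ys n 0)
  obtain ⟨y, h4, h5⟩ := h.lim_cal' hk (fun n => (hd n).add_const (-us n I)) h3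
    (xs := fun n t => δ n • ys n t) (Eventually.of_forall fun n =>
      ((hy n).smul_eqv F (h.tons n) (hu n) (δ n)).add_const (-us n I)) (Eventually.of_forall hδ)
  exact ⟨δ, w, y, h1, h2, h4, h5⟩

variable (Γ) in
/-- The two curves are close to `x`, close to each other and almost close up on the other side. -/
def Pw (x : ℝ → ℍ) (ε : ℝ) (m : ℕ) (y y' : ℝ → ℍ) : Prop :=
  Metric.infDist (y 0) (Orb Γ x) < ε ∧ Metric.infDist (y' 0) (Orb Γ y) < 1 / (m + 1) ∧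
    ∃ (t : ℝ) (g : Γ), ¬Ori g ∧ dist (y t) (g • y 0) < 1 / (m + 1)

/-- A property of all pairs of calibrated curves. -/
def AllCal (L : ℂ × ℂ → ℝ) (c : Γ → ℝ) (P : (ℝ → ℍ) → (ℝ → ℍ) → Prop) : Prop :=
  ∀ u u' y y', Eqv c u → Dom L (crit L c) u → Cal L (crit L c) u y → Eqv c u' →
    Dom L (crit L c) u' → Cal L (crit L c) u' y' → P y y'

/-- The open conditions. -/
def Wm (m : ℕ) (L : ℂ × ℂ → ℝ) (c : Γ → ℝ) : Prop :=
  Gs L c ∨ ∃ (x : ℝ → ℍ) (γ : Γ) (T ε : ℝ), Per x γ T ∧ ¬Ori γ ∧ 0 < ε ∧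
    (∀ (δ : Γ) (t t' : ℝ), dist (δ • x t') (x t) ≤ 3 * ε → ∃ j : ℤ, δ = γ ^ j) ∧
      AllCal L c (Pw Γ x ε m)

lemma not_ori_conj (F : Deck Γ) {g : Γ} (h : ¬Ori g) (δ : Γ) : ¬Ori (δ⁻¹ * g * δ) := by
  intro h1
  have h2 : sg (δ⁻¹ * g * δ) = 1 := if_pos h1
  rw [F.sg_mul, F.sg_mul, F.sg_inv, show sg g = -1 from if_neg h] at h2
  rcases sg_cases δ with ⟨-, a⟩ | ⟨-, a⟩ <;> rw [a] at h2 <;> norm_num at h2

lemma wm_open (F : Deck Γ) (m : ℕ) (h : LSeq Γ atTop L Ls) (hc : c ∈ Coh Γ)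
    (hcs : ∀ n, cs n ∈ Coh Γ) (hl : CLim atTop c cs) (hW : Wm m L c) :
    ∀ᶠ n in atTop, Wm m (Ls n) (cs n) := by
  rcases hW with hG | ⟨x, γ, T, ε, h1, h2, h3, h4, h5⟩
  · exact (h.gs F hc hcs hl hG).mono fun n hn => Or.inl hn
  suffices H : ∀ᶠ n in atTop, AllCal (Ls n) (cs n) (Pw Γ x ε m) from
    H.mono fun n hn => Or.inr ⟨x, γ, T, ε, h1, h2, h3, h4, hn⟩
  refine Filter.mem_iff_ultrafilter.2 fun l hg => ?_
  by_contra hcon
  have hbad := Ultrafilter.eventually_not.2 hcon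
  have H : ∀ n, ∃ u u' y y', (Eqv (cs n) u ∧ Dom (Ls n) (crit (Ls n) (cs n)) u ∧
      Cal (Ls n) (crit (Ls n) (cs n)) u y) ∧ (Eqv (cs n) u' ∧ Dom (Ls n) (crit (Ls n) (cs n)) u' ∧
      Cal (Ls n) (crit (Ls n) (cs n)) u' y') ∧
      (¬AllCal (Ls n) (cs n) (Pw Γ x ε m) → ¬Pw Γ x ε m y y') := by
    intro n
    by_cases e : AllCal (Ls n) (cs n) (Pw Γ x ε m)
    · obtain ⟨u, k1, k2⟩ := exists_dom F (h.tons n) (hcs n)
      obtain ⟨y, k3⟩ := exists_cal F (h.tons n) (hcs n) k1 k2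
      exact ⟨u, u, y, y, ⟨k1, k2, k3⟩, ⟨k1, k2, k3⟩, fun e' => absurd e e'⟩
    · by_contra e'
      exact e fun u u' y y' k1 k2 k3 k4 k5 k6 => by
        by_contra k7
        exact e' ⟨u, u', y, y', ⟨k1, k2, k3⟩, ⟨k4, k5, k6⟩, fun _ => k7⟩
  choose us us' ys ys' k1 k2 k3 using H
  obtain ⟨δ, u, y, a1, a2, a3, a4⟩ := usc F (h.mono hg) hc hcs (hl.mono hg) (fun n => (k1 n).1)
    (fun n => (k1 n).2.1) fun n => (k1 n).2.2
  obtain ⟨δ', u', y', b1, b2, b3, b4⟩ := usc F (h.mono hg) hc hcs (hl.mono hg) (fun n => (k2 n).1)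
    (fun n => (k2 n).2.1) fun n => (k2 n).2.2
  obtain ⟨c1, c2, t, g, c3, c4⟩ := h5 u u' y y' a1 a2 a3 b1 b2 b3
  obtain ⟨_, ⟨g', t', rfl⟩, c5⟩ := (Metric.infDist_lt_iff ⟨_, mem_orb y 1 0⟩).1 c2
  have d1 := (((Metric.continuous_infDist_pt (Orb Γ x)).tendsto _).comp (a4 0)).eventually_lt_const c1
  have d2 := ((b4 0).dist (((F.cont g').tendsto _).comp (a4 t'))).eventually_lt_const c5
  have d3 := ((a4 t).dist (((F.cont g).tendsto _).comp (a4 0))).eventually_lt_const c4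
  obtain ⟨n, e0, e1, e2, e3⟩ := (hbad.and (d1.and (d2.and d3))).exists
  simp only [Function.comp] at e1 e2 e3
  refine k3 n e0 ⟨by rwa [infDist_orb_smul F] at e1, ?_, t, _, not_ori_conj F c3 (δ n), ?_⟩
  · rw [← infDist_orb_smul F (δ' n)]
    refine (Metric.infDist_le_dist_of_mem (mem_orb (ys n) (g' * δ n) t')).trans_lt ?_
    rwa [mul_smul]
  · rwa [← F.iso (δ n), mul_smul, mul_smul, smul_inv_smul]

lemma deg_orb (F : Deck Γ) (hL : Tonelli Γ L) (hc : c ∈ Coh Γ) (h : TDall L c) {x : ℝ → ℍ}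
    {γ : Γ} {T : ℝ} {u : ℍ → ℝ} (hu : Eqv c u) (hd : Dom L (crit L c) u)
    (hx : Cal L (crit L c) u x) (hp : Per x γ T) (ho : ¬Ori γ) {y : ℝ → ℍ}
    (hy : Cal L (crit L c) u y) : y 0 ∈ Orb Γ x := by
  have hZ := hp.isClosed_orb F hx.continuous
  have hne : (Orb Γ x).Nonempty := ⟨_, mem_orb x 1 0⟩
  obtain ⟨Φ, V, A, hcal, hfl⟩ := exists_flow F hL hu hd
  have e : ∀ t, Φ t (x 0) = x t := fun t => by rw [(hfl x hx 0).2.2, zero_add]
  have e' : (fun t => Φ t (x 0)) = x := funext e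
  have hv : ∀ t, vel x t ≠ 0 := by
    refine (hx.vel_cases F hL hd).resolve_right fun h0 => ho ?_
    have h1 := hp.2 0
    rw [h0.2] at h1
    rw [F.free γ _ h1.symm]
    exact ori_one
  have := one_sided F A (z₀ := x 0) (hfl x hx 0).1 (fun t => by
    rw [e, (hfl x hx t).2.1]
    exact hv t) hp.1 (γ := γ) (by rw [e, ← hp.2 0, zero_add]) ho (fun τ hτ => by
      simp only [e]
      exact hx.emb F hL hu hd hp hτ) (fun w hw δ hδ a => ?_) (hfl y hy 0).1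
  · rwa [e'] at this
  rw [e']
  obtain ⟨S, hS0, hS1⟩ := exists_bumps F hZ (fun g z hz => (smul_mem_orb g).2 hz) hne hδ
  obtain ⟨hφ, ρ, hρ⟩ := h.bumps F hL hc S
  set φ : ℂ → ℝ := fun z => ∑ i ∈ S, fam Γ i.1 0 z with hφdef
  have φ0 : ∀ (g : Γ) (t : ℝ), φ (g • x t : ℍ) = 0 := fun g t => hS0 _ (mem_orb x g t)
  have hρ0 : ρ = 0 := by
    refine hρ.zero_of_per F hL hc hφ hu hx hp ?_
    have : ∀ t, φ (x t) = 0 := fun t => by simpa using φ0 1 t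
    simp [this]
  subst hρ0
  have hK : TDK (CS L (crit L c) u) Φ (0 : Γ → ℝ) φ 0 :=
    tdk_of_tda F hL hc (Submodule.zero_mem _) hφ hu hd (fun z hz => ⟨A.zero z hz, hcal z hz⟩) hρ
  obtain ⟨C, hC, hseg⟩ := hK.seg0 F A one_pos
  have key : ∀ z ∈ CS L (crit L c) u, ∃ t ∈ Set.Icc 0 ((2 * (C + 1)) ^ 2),
      Metric.infDist (Φ t z) (Orb Γ x) < δ := by
    intro z hz
    by_contra hn
    push Not at hn
    have h1 := hseg z hz ((2 * (C + 1)) ^ 2) (by nlinarith)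
    rw [zero_mul, add_zero, Real.sqrt_sq (by positivity)] at h1
    have h2 := t9sig_lb (t9ret_contφ A hz hφ.1.continuousOn) (a := 0) (b := (2 * (C + 1)) ^ 2)
      (c := 1) (by positivity) fun t ht => hS1 _ (hn t ht)
    nlinarith [le_abs_self (∫ t in (0 : ℝ)..(2 * (C + 1)) ^ 2, φ (Φ t z))]
  constructor
  · obtain ⟨t, h1, h2⟩ := key _ (A.map a w hw)
    exact ⟨t + a, by linarith [h1.1], by rwa [A.add _ _ _ hw]⟩
  · obtain ⟨t, h1, h2⟩ := key _ (A.map (a - (2 * (C + 1)) ^ 2) w hw)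
    exact ⟨t + (a - (2 * (C + 1)) ^ 2), by linarith [h1.2], by rwa [A.add _ _ _ hw]⟩

lemma eq_of_mem (F : Deck Γ) (hL : Tonelli Γ L) {x y : ℝ → ℍ} {u : ℍ → ℝ} (hu : Eqv c u)
    (hd : Dom L (crit L c) u) (hx : Cal L (crit L c) u x) (hy : Cal L (crit L c) u y)
    (h : y 0 ∈ Orb Γ x) : ∃ (δ : Γ) (s : ℝ), ∀ t, y t = δ • x (t + s) := by
  obtain ⟨δ, s, e⟩ := h
  refine ⟨δ, s, fun t => ?_⟩
  have := Cal.unique (hL.unif1 F) (Set.mem_singleton L) hd hy (hx.smul_eqv F hL hu δ) e t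
  rwa [zero_add, add_comm s t] at this

lemma wm_of_deg (F : Deck Γ) (hL : Tonelli Γ L) (hc : c ∈ Coh Γ) (h : TDall L c) (hD : DegO L c)
    (m : ℕ) : Wm m L c := by
  obtain ⟨x, γ, T, η, ⟨⟨u₀, hu₀, hd₀, hx₀, hp⟩, ho, -, -, -, -⟩, hm, -⟩ := hD
  obtain ⟨ε, hε, hemb⟩ := hx₀.emb F hL hu₀ hd₀ hp one_pos
  have hpos : (0 : ℝ) < 1 / (m + 1) := by positivity
  refine Or.inr ⟨x, γ, T, ε / 3, hp, ho, by linarith, fun δ t t' k => ?_,
    fun u u' y y' k1 k2 k3 k4 k5 k6 => ?_⟩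
  · obtain ⟨s, -, k1⟩ := hemb δ t t' (by linarith)
    obtain ⟨j, -, k2⟩ := hm.2 t' (t + s) δ k1.symm
    exact ⟨j, k2⟩
  · have l1 := deg_orb F hL hc h k1 k2 (hx₀.per hu₀ hp k1 k2) hp ho k3
    obtain ⟨δ', s', l2⟩ := deg_orb F hL hc h k4 k5 (hx₀.per hu₀ hp k4 k5) hp ho k6
    obtain ⟨δ, s, l3⟩ := eq_of_mem F hL k1 k2 (hx₀.per hu₀ hp k1 k2) k3 l1
    refine ⟨?_, ?_, T, δ⁻¹⁻¹ * γ * δ⁻¹, not_ori_conj F ho _, ?_⟩
    · rw [Metric.infDist_zero_of_mem l1]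
      linarith
    · rw [Metric.infDist_zero_of_mem (s := Orb Γ y) ⟨δ' * δ⁻¹, s' - s, by
        rw [l2, l3, mul_smul, inv_smul_smul, sub_add_cancel]⟩]
      exact hpos
    · rw [l3, l3, inv_inv, mul_smul, mul_smul, inv_smul_smul, ← hp.2, zero_add, add_comm s T,
        dist_self]
      exact hpos

lemma of_wm (F : Deck Γ) (hL : Tonelli Γ L) (hc : c ∈ Coh Γ) (h : ∀ m, Wm m L c) :
    Gs L c ∨ ∃ (x : ℝ → ℍ) (γ : Γ) (T : ℝ), MinPer x γ T ∧ ¬Ori γ ∧ (∀ t, vel x t ≠ 0) ∧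
      ∀ u, Eqv c u → Dom L (crit L c) u → Cal L (crit L c) u x ∧
        ∀ y, Cal L (crit L c) u y → ∃ (δ : Γ) (s : ℝ), ∀ t, y t = δ • x (t + s) := by
  refine or_iff_not_imp_left.2 fun hG => ?_
  choose xs γs Ts εs h1 h2 h3 h4 h5 using fun m => (h m).resolve_left hG
  obtain ⟨u, hu, hd⟩ := exists_dom F hL hc
  obtain ⟨x₁, hx₁⟩ := exists_cal F hL hc hu hd
  obtain ⟨Φ, V, A, hΦ, -⟩ := exists_flow F hL hu hd
  have hsm : ∀ a : ℝ, 0 < a → ∃ m : ℕ, 1 / ((m : ℝ) + 1) < a := fun a ha => exists_nat_one_div_lt ha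
  rcases A.trichotomy F ⟨x₁ 0, x₁, hx₁, rfl⟩ with ⟨z, hz, γ, T, hT, hzT⟩ | ⟨K', hK', A'⟩
  · have hy : Cal L (crit L c) u fun t => Φ t z := hΦ z hz
    have hp : Per (fun t => Φ t z) γ T := by
      refine ⟨hT, fun t => ?_⟩
      show Φ (t + T) z = γ • Φ t z
      rw [A.add t T z hz, hzT, A.comm t γ z hz]
    generalize (fun t => Φ t z) = x at hy hp
    rcases hy.vel_cases F hL hd with hv | ⟨-, h0⟩
    · obtain ⟨γ', T', hm⟩ := hy.minPer F hL hu hd hp hv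
      refine ⟨x, γ', T', hm, fun ho => ?_, hv, fun u' k1 k2 => ⟨hy.per hu hp k1 k2,
        fun y k3 => eq_of_mem F hL k1 k2 (hy.per hu hp k1 k2) k3 ?_⟩⟩
      · obtain ⟨ε, hε, hemb⟩ := hy.emb F hL hu hd hp one_pos
        obtain ⟨m, hm'⟩ := hsm ε hε
        obtain ⟨-, -, t, g, k1, k2⟩ := h5 m u u x x hu hd hy hu hd hy
        obtain ⟨s, -, k3⟩ := hemb g t 0 (by rw [dist_comm]; linarith)
        obtain ⟨j, -, rfl⟩ := hm.2 0 (t + s) g k3.symm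
        exact k1 (ho.zpow j)
      · by_contra k4
        obtain ⟨m, hm'⟩ := hsm _ (((hp.isClosed_orb F hy.continuous).notMem_iff_infDist_pos
          ⟨_, mem_orb x 1 0⟩).1 k4)
        linarith [(h5 m u u' x y hu hd hy k1 k2 k3).2.1]
    · obtain ⟨r, hr, hinj⟩ := F.inj
      obtain ⟨m, hm'⟩ := hsm r hr
      obtain ⟨-, -, t, g, k1, k2⟩ := h5 m u u x x hu hd hy hu hd hy
      rw [h0 t, dist_comm] at k2
      rw [hinj g _ (by linarith)] at k1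
      exact absurd ori_one k1
  · refine (aper_band F A' (h1 0) (h2 0) (h3 0) (h4 0) fun z hz => ?_).elim
    obtain ⟨y, k1, rfl⟩ := hK' hz
    exact (h5 0 u u y y hu hd k1 hu hd k1).1

theorem main (F : Deck Γ) (hL : Tonelli Γ L) :
    ∃ b : ℕ, Nonempty ((Fin b → ℝ) ≃ₗ[ℝ] Coh Γ) ∧ ∃ O : ℕ → Set (ℂ → ℝ),
      (∀ n, OpenDense Γ (O n)) ∧ ∀ f, Pot Γ f → (∀ n, f ∈ O n) →
        ∀ e : (Fin b → ℝ) ≃ₗ[ℝ] Coh Γ, ∀ᵐ t, ∀ U : ℍ → ℝ,
          (∀ (γ : Γ) (z : ℍ), U (γ • z) = U z + (e t : Γ → ℝ) γ) →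
          ∃ x₀ : ℝ → ℍ, EL (addP L f) x₀ ∧
            (HypPer Γ (addP L f) x₀ ∨ HypEq (addP L f) x₀ ∨
              ∃ (γ : Γ) (T : ℝ), 0 < T ∧ (∀ s, x₀ (s + T) = γ • x₀ s) ∧ ¬Ori γ) ∧
            ∀ x, Static Γ (addP L f) U x ↔ ∃ (γ : Γ) (s : ℝ), ∀ t, x t = γ • x₀ (t + s) := by
  obtain ⟨b, ⟨e₀⟩⟩ := F.dim
  have H := fun m : ℕ => residual_gen F hL e₀ (Wm m)
    (fun L Ls c cs k1 k2 k3 k4 k5 => wm_open F m k1 k2 k3 k4 k5) (fun f hf k δ hδ => by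
      obtain ⟨ε, P, hP, hN⟩ := exists_pert F k hδ
      have hL' : Tonelli Γ (addP L f) := hL.add F hf.c2
      obtain ⟨a, h1, h2⟩ := ((hP.ae_tdall F hL' e₀).and (hP.ae_nondeg F hL')).exists
      refine ⟨f + P a, hf.add (hP.pot a), hN a f, ?_⟩
      rw [addP_addP] at h1 h2
      filter_upwards [h1] with t ht
      have hL'' := hL.add F (hf.add (hP.pot a)).c2
      rcases ht.gs_or' F hL'' (e₀ t).2 with h5 | h5 | h5
      · exact Or.inl h5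
      · exact absurd h5 h2
      · exact wm_of_deg F hL'' (e₀ t).2 ht h5 m)
  choose O hO hG using H
  refine ⟨b, ⟨e₀⟩, fun n => O n.unpair.1 n.unpair.2, fun n => hO _ _, fun f hf hfO e => ?_⟩
  have h0 : ∀ᵐ t, ∀ m, Wm m (addP L f) (e₀ t : Γ → ℝ) := ae_all_iff.2 fun m =>
    hG m f hf fun n => by simpa only [Nat.unpair_pair] using hfO (Nat.pair m n)
  have h1 := ae_transfer e₀ e (P := fun c : Coh Γ => ∀ m, Wm m (addP L f) (c : Γ → ℝ)) h0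
  have hL' := hL.add F hf.c2
  filter_upwards [h1] with t ht U hU
  rcases of_wm F hL' (e t).2 ht with h2 | ⟨x, γ, T, hm, ho, -, h2⟩
  · obtain ⟨x, k1, k2, k3⟩ := h2.good F hL' (e t).2 U hU
    exact ⟨x, k1, k2.imp_right Or.inl, k3⟩
  · obtain ⟨u, hu, hd⟩ := exists_dom F hL' (e t).2
    obtain ⟨hx, hy⟩ := h2 u hu hd
    have hr : Reg (addP L f) x := hx.reg (hL'.unif1 F) rfl hd
    refine ⟨x, hr.el, Or.inr (Or.inr ⟨γ, T, hm.1.1, hm.1.2, ho⟩),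
      fun y => ⟨fun hs => hy y (hs.cal F hL' (e t).2 hU hu hd), ?_⟩⟩
    rintro ⟨δ, s, e1⟩
    obtain rfl : y = fun t => δ • x (t + s) := funext e1
    refine ((hx.shift s).smul_eqv F hL' hu δ).static F hL' (e t).2 hU hu hd (γ := δ * γ * δ⁻¹)
      ⟨hm.1.1, fun t => ?_⟩
    simp only [mul_smul, inv_smul_smul]
    rw [← hm.1.2, add_right_comm]

end Pool.Agent.FS.OneOrbit
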